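import Pool.Graph.R_pool_sql_team_seeded_efc1946e.K1H66.HS.Locs
import Pool.Graph.R_pool_sql_team_seeded_2aa45f1a.Q155.HS.Tra

/-!
# Energies of exponent `m` at one scale for maps into normed spaces; averages; null sets
-/

set_option autoImplicit false

open MeasureTheory Set Metric Filter Topology
open scoped ENNReal NNReal

namespace Pool.Agent.H751.HSE

open Pool.Agent.Y485.HS Pool.Agent.Y489.SP Pool.Agent.Y475.HS Pool.Agent.Y532.SP.BAI
  Pool.Agent.Y532.SP.LOCS Pool.Agent.K1H66.HS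

/-- the discrete energy of exponent `m` of `F` at scale `r` is at most `ε` -/
def EnW {n : ℕ} {V : Type} [PseudoMetricSpace V] (m : ℕ) (r ε : ℝ) (F : E n → V) : Prop :=
  ∀ A : Finset (E n), (∀ a ∈ A, a ∈ closedBall (0 : E n) 3) →
    (∀ a ∈ A, ∀ b ∈ A, a ≠ b → r ≤ dist a b) →
    r * ∑ a ∈ A, Metric.diam (F '' (closedBall a r ∩ closedBall 0 3)) ^ m ≤ ε

/-- small discrete energies at some scales -/
def SmW {n : ℕ} {V : Type} [PseudoMetricSpace V] (m : ℕ) (F : E n → V) : Prop :=
  ∀ ε : ℝ, 0 < ε → ∃ r : ℝ, 0 < r ∧ EnW m r ε F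

theorem EnW.mono {n m : ℕ} {V : Type} [PseudoMetricSpace V] {r ε ε' : ℝ} {F : E n → V}
    (h : EnW m r ε F) (he : ε ≤ ε') : EnW m r ε' F := fun A hA hs => (h A hA hs).trans he

theorem EnW.congr {n m : ℕ} {V : Type} [PseudoMetricSpace V] {r ε : ℝ} {u v : E n → V}
    (h : EnW m r ε u) (huv : ∀ x ∈ BB n, u x = v x) : EnW m r ε v := by
  intro A hA hs
  have h1 := h A hA hs
  refine le_trans (le_of_eq ?_) h1
  congr 1
  refine Finset.sum_congr rfl fun a _ => ?_
  have h2 : v '' (closedBall a r ∩ closedBall 0 3) = u '' (closedBall a r ∩ closedBall 0 3) := by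
    refine Set.image_congr fun x hx => (huv x ?_).symm
    exact closedBall_subset_closedBall (by norm_num) hx.2
  rw [h2]

section
variable {n : ℕ} {V : Type} [NormedAddCommGroup V] [NormedSpace ℝ V]

theorem cont_diamV {Ω : Type} [TopologicalSpace Ω] (T : Ω → E n → V)
    (hT : ContinuousOn (fun q : Ω × E n => T q.1 q.2) (univ ×ˢ BB n)) (a : E n) (r : ℝ) :
    Continuous (fun ω => Metric.diam (T ω '' Kar a r)) := by
  have h1 : (fun ω => Metric.diam (T ω '' Kar a r)) =
      fun ω => Metric.diam (extV (resV T hT ω) '' Kar a r) := by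
    funext ω
    congr 1
    refine image_congr fun x hx => ?_
    rw [extV_of_mem _ (kar_sub a r hx), resV_apply]
  rw [h1]
  exact (diam_lipV a r).continuous.comp (resV T hT).continuous

theorem bdd_TV {Ω : Type} [TopologicalSpace Ω] (T : Ω → E n → V)
    (hT : ContinuousOn (fun q : Ω × E n => T q.1 q.2) (univ ×ˢ BB n)) (ω : Ω) (a : E n) (r : ℝ) :
    Bornology.IsBounded (T ω '' Kar a r) := by
  have h1 : T ω '' Kar a r = extV (resV T hT ω) '' Kar a r := by
    refine image_congr fun x hx => ?_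
    rw [extV_of_mem _ (kar_sub a r hx), resV_apply]
  rw [h1]
  exact bdd_extV _ _ _

/-- the energy of an average is at most the average of the energies -/
theorem ave_leV {Ω : Type} [TopologicalSpace Ω] [CompactSpace Ω]
    [MeasurableSpace Ω] [BorelSpace Ω] (μ : Measure Ω) [IsProbabilityMeasure μ] (m : ℕ)
    (T : Ω → E n → V) (hT : ContinuousOn (fun q : Ω × E n => T q.1 q.2) (univ ×ˢ BB n))
    (A : Finset (E n)) (r : ℝ) :
    ∑ a ∈ A, Metric.diam ((fun x => ∫ ω, T ω x ∂μ) '' Kar a r) ^ m ≤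
      ∫ ω, ∑ a ∈ A, Metric.diam (T ω '' Kar a r) ^ m ∂μ := by
  have hint : ∀ a : E n, ∀ k : ℕ, Integrable (fun ω => Metric.diam (T ω '' Kar a r) ^ k) μ :=
    fun a k => ((cont_diamV T hT a r).pow k).integrable_of_hasCompactSupport
      (HasCompactSupport.of_compactSpace _)
  have hTint : ∀ x ∈ BB n, Integrable (fun ω => T ω x) μ := fun x hx => by
    have hc : Continuous (fun ω : Ω => (ω, x)) := by fun_prop
    have : Continuous (fun ω => T ω x) := hT.comp_continuous hc (fun ω => ⟨mem_univ _, hx⟩)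
    exact this.integrable_of_hasCompactSupport (HasCompactSupport.of_compactSpace _)
  rw [integral_finsetSum _ fun a _ => hint a m]
  refine Finset.sum_le_sum fun a _ => ?_
  have h1 : Metric.diam ((fun x => ∫ ω, T ω x ∂μ) '' Kar a r) ≤
      ∫ ω, Metric.diam (T ω '' Kar a r) ∂μ := by
    have hi := hint a 1
    simp only [pow_one] at hi
    refine Metric.diam_le_of_forall_dist_le (integral_nonneg fun ω => diam_nonneg) ?_
    rintro _ ⟨x, hx, rfl⟩ _ ⟨y, hy, rfl⟩
    have hxB := kar_sub a r hx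
    have hyB := kar_sub a r hy
    show dist (∫ ω, T ω x ∂μ) (∫ ω, T ω y ∂μ) ≤ _
    rw [dist_eq_norm, ← integral_sub (hTint x hxB) (hTint y hyB)]
    refine (norm_integral_le_integral_norm _).trans ?_
    refine integral_mono ((hTint x hxB).sub (hTint y hyB)).norm hi fun ω => ?_
    show ‖T ω x - T ω y‖ ≤ _
    rw [← dist_eq_norm]
    exact dist_le_diam_of_mem (bdd_TV T hT ω a r) (mem_image_of_mem _ hx) (mem_image_of_mem _ hy)
  refine (pow_le_pow_left₀ diam_nonneg h1 m).trans ?_
  have h2 := (convexOn_pow (𝕜 := ℝ) m).map_integral_le (μ := μ)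
    (f := fun ω => Metric.diam (T ω '' Kar a r)) (by fun_prop) isClosed_Ici
    (Eventually.of_forall fun ω => show _ ∈ Ici (0 : ℝ) from diam_nonneg) (by simpa using hint a 1)
    (hint a m)
  exact h2

/-- bounded energies along a sequence of scales which tend to zero for every member give small
energies of the average -/
theorem smW_dom {Ω : Type} [TopologicalSpace Ω] [CompactSpace Ω]
    [MeasurableSpace Ω] [BorelSpace Ω] (μ : Measure Ω) [IsProbabilityMeasure μ] (m : ℕ)
    (T : Ω → E n → V) (hT : ContinuousOn (fun q : Ω × E n => T q.1 q.2) (univ ×ˢ BB n))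
    (r : ℕ → ℝ) (hr : ∀ j, 0 < r j) (N : ℝ) (hN : ∀ ω j, EnW m (r j) N (T ω))
    (h0 : ∀ ω, ∀ ε : ℝ, 0 < ε → ∀ᶠ j in atTop, EnW m (r j) ε (T ω)) :
    SmW m (fun x => ∫ ω, T ω x ∂μ) := by
  intro ε hε
  by_contra hcon
  push Not at hcon
  have hc : ∀ j : ℕ, ∃ A : Finset (E n), (∀ a ∈ A, a ∈ closedBall (0 : E n) 3) ∧
    (∀ a ∈ A, ∀ b ∈ A, a ≠ b → r j ≤ dist a b) ∧
    ε < r j * ∑ a ∈ A, Metric.diam ((fun x => ∫ ω, T ω x ∂μ) '' Kar a (r j)) ^ m := by
    intro j
    have h1 := hcon (r j) (hr j)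
    unfold EnW at h1
    push Not at h1
    exact h1
  choose A hA hs hb using hc
  have hcont : ∀ j, Continuous (fun ω => r j * ∑ a ∈ A j, Metric.diam (T ω '' Kar a (r j)) ^ m) :=
    fun j => continuous_const.mul
      (continuous_finsetSum _ fun a _ => (cont_diamV T hT a (r j)).pow m)
  have hpos : ∀ j ω, 0 ≤ r j * ∑ a ∈ A j, Metric.diam (T ω '' Kar a (r j)) ^ m := fun j ω =>
    mul_nonneg (hr j).le (Finset.sum_nonneg fun a _ => pow_nonneg diam_nonneg _)
  have hlim : Tendsto (fun j => ∫ ω, r j * ∑ a ∈ A j, Metric.diam (T ω '' Kar a (r j)) ^ m ∂μ) atTop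
      (𝓝 (∫ _ω, (0 : ℝ) ∂μ)) := by
    refine tendsto_integral_of_dominated_convergence (fun _ => N)
      (fun j => (hcont j).aestronglyMeasurable) (integrable_const _)
      (fun j => Eventually.of_forall fun ω => ?_) (Eventually.of_forall fun ω => ?_)
    · rw [Real.norm_of_nonneg (hpos j ω)]
      exact hN ω j (A j) (hA j) (hs j)
    · rw [Metric.tendsto_atTop']
      intro δ hδ
      obtain ⟨J, hJ⟩ := eventually_atTop.1 (h0 ω (δ / 2) (by positivity))
      refine ⟨J, fun j hj => ?_⟩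
      rw [dist_zero_right, Real.norm_of_nonneg (hpos j ω)]
      have := hJ j hj.le (A j) (hA j) (hs j)
      linarith
  rw [integral_zero] at hlim
  have hev := hlim.eventually (gt_mem_nhds hε)
  obtain ⟨j, hj⟩ := hev.exists
  have h1 := ave_leV μ m T hT (A j) (r j)
  have h2 := hb j
  have h3 : r j * ∑ a ∈ A j, Metric.diam ((fun x => ∫ ω, T ω x ∂μ) '' Kar a (r j)) ^ m ≤
      r j * ∫ ω, ∑ a ∈ A j, Metric.diam (T ω '' Kar a (r j)) ^ m ∂μ :=
    mul_le_mul_of_nonneg_left h1 (hr j).le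
  rw [integral_const_mul] at hj
  linarith

end

/-- pairs -/
theorem pair_enW {n m : ℕ} {r ε : ℝ} (hr : 0 < r) {v : E n → E n} (hv : ContinuousOn v (BB n))
    (hE : EnW m r ε v) {f : E n → ℝ} (hf : LipschitzWith 1 f) :
    EnW m r ε (fun x => (v x, f (v x))) := by
  intro A hA hAs
  refine le_trans (mul_le_mul_of_nonneg_left (Finset.sum_le_sum fun a _ => ?_) hr.le) (hE A hA hAs)
  have hb : Bornology.IsBounded (v '' (closedBall a r ∩ closedBall 0 3)) := by
    have h1 : IsCompact (v '' closedBall (0 : E n) 3) :=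
      (isCompact_closedBall (0 : E n) 3).image_of_continuousOn
        (hv.mono (closedBall_subset_closedBall (by norm_num)))
    exact h1.isBounded.subset (image_mono inter_subset_right)
  refine pow_le_pow_left₀ Metric.diam_nonneg ?_ m
  refine Metric.diam_le_of_forall_dist_le Metric.diam_nonneg ?_
  rintro _ ⟨x, hx, rfl⟩ _ ⟨x', hx', rfl⟩
  have h1 : dist (v x) (v x') ≤ Metric.diam (v '' (closedBall a r ∩ closedBall 0 3)) :=
    Metric.dist_le_diam_of_mem hb (mem_image_of_mem _ hx) (mem_image_of_mem _ hx')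
  rw [Prod.dist_eq]
  refine max_le h1 ?_
  have h2 := hf.dist_le_mul (v x) (v x')
  rw [NNReal.coe_one, one_mul] at h2
  exact h2.trans h1

theorem null_imageW {n : ℕ} {u : E n → E n × ℝ} (hE : SmW (n + 1) u)
    (hu : ContinuousOn u (BB n)) (i : Fin n) :
    volume ((fun x : E n => (((u x).1, x i), (u x).2)) '' closedBall (0 : E n) 3) = 0 := by
  classical
  have hbd : ∀ (a : E n) (r : ℝ), Bornology.IsBounded (u '' (closedBall a r ∩ closedBall 0 3)) := by
    intro a r
    have h1 : IsCompact (u '' closedBall (0 : E n) 3) :=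
      (isCompact_closedBall (0 : E n) 3).image_of_continuousOn
        (hu.mono (closedBall_subset_closedBall (by norm_num)))
    exact h1.isBounded.subset (image_mono inter_subset_right)
  set κ := volume (ball (0 : E n) 1) with hκ
  have hκt : κ ≠ ∞ := measure_ball_lt_top.ne
  have key : ∀ ε : ℝ, 0 < ε →
      volume ((fun x : E n => (((u x).1, x i), (u x).2)) '' closedBall (0 : E n) 3) ≤
        ENNReal.ofReal (4 * ε) * κ := by
    intro ε hε
    obtain ⟨r, hr, hE'⟩ := hE ε hε
    obtain ⟨A, hA1, hA2, hA3⟩ := Pool.Agent.Y401.SPN.net n hr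
    set D : E n → ℝ := fun a => Metric.diam (u '' (closedBall a r ∩ closedBall 0 3)) with hD
    have hD0 : ∀ a, 0 ≤ D a := fun a => Metric.diam_nonneg
    have hsub : (fun x : E n => (((u x).1, x i), (u x).2)) '' closedBall (0 : E n) 3 ⊆
        ⋃ a ∈ A, (closedBall (u a).1 (D a) ×ˢ closedBall (a i) r) ×ˢ closedBall (u a).2 (D a) := by
      rintro _ ⟨x, hx, rfl⟩
      obtain ⟨a, ha, hxa⟩ := hA3 x hx
      have haa : a ∈ closedBall a r ∩ closedBall (0 : E n) 3 :=
        ⟨mem_closedBall_self hr.le, hA1 a ha⟩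
      have h1 : dist (u x) (u a) ≤ D a := Metric.dist_le_diam_of_mem (hbd a r)
        (mem_image_of_mem u ⟨hxa, hx⟩) (mem_image_of_mem u haa)
      rw [Prod.dist_eq, max_le_iff] at h1
      refine mem_iUnion₂.2 ⟨a, ha, ⟨⟨h1.1, ?_⟩, h1.2⟩⟩
      rw [mem_closedBall, Real.dist_eq]
      exact (Pool.Agent.Y401.SPN.coord x a i).trans hxa
    refine (measure_mono hsub).trans ((measure_biUnion_finset_le _ _).trans ?_)
    have h2 : ∀ a ∈ A, volume ((closedBall (u a).1 (D a) ×ˢ closedBall (a i) r) ×ˢ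
        closedBall (u a).2 (D a)) = ENNReal.ofReal (4 * r * D a ^ (n + 1)) * κ := by
      intro a _
      rw [Measure.volume_eq_prod, Measure.prod_prod, Measure.volume_eq_prod, Measure.prod_prod,
        Real.volume_closedBall, Real.volume_closedBall,
        Measure.addHaar_closedBall volume _ (hD0 a), finrank_euclideanSpace_fin]
      have hDa := hD0 a
      have e : ENNReal.ofReal (4 * r * D a ^ (n + 1)) =
          ENNReal.ofReal (D a ^ n) * ENNReal.ofReal (2 * r) * ENNReal.ofReal (2 * D a) := by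
        rw [← ENNReal.ofReal_mul (by positivity), ← ENNReal.ofReal_mul (by positivity)]
        congr 1
        ring
      rw [e, ← hκ]
      ring
    rw [Finset.sum_congr rfl h2, ← Finset.sum_mul, ← ENNReal.ofReal_sum_of_nonneg
      (fun a _ => by have := hD0 a; positivity)]
    refine mul_le_mul_left (ENNReal.ofReal_le_ofReal ?_) _
    rw [← Finset.mul_sum]
    have h3 := hE' A hA1 hA2
    calc 4 * r * ∑ a ∈ A, D a ^ (n + 1) = 4 * (r * ∑ a ∈ A, D a ^ (n + 1)) := by ring
      _ ≤ 4 * ε := by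
          exact mul_le_mul_of_nonneg_left h3 (by norm_num)
  have hlim : Tendsto (fun ε : ℝ => ENNReal.ofReal (4 * ε) * κ) (𝓝[>] 0) (𝓝 0) := by
    have h1 : Tendsto (fun ε : ℝ => 4 * ε) (𝓝[>] 0) (𝓝 0) := by
      have h2 : Tendsto (fun ε : ℝ => 4 * ε) (𝓝 0) (𝓝 (4 * 0)) :=
        (continuous_const.mul continuous_id).tendsto 0
      rw [mul_zero] at h2
      exact h2.mono_left nhdsWithin_le_nhds
    have h2 := ENNReal.tendsto_ofReal h1
    rw [ENNReal.ofReal_zero] at h2
    have := ENNReal.Tendsto.mul_const h2 (b := κ) (Or.inr hκt)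
    rwa [zero_mul] at this
  refine le_antisymm (ge_of_tendsto hlim ?_) (zero_le)
  filter_upwards [self_mem_nhdsWithin] with ε hε
  exact key ε hε

theorem ae_nullW {n : ℕ} {u : E n → E n × ℝ} (hE : SmW (n + 1) u)
    (hu : ContinuousOn u (BB n)) (i : Fin n) :
    ∀ᵐ y : E n, ∀ᵐ t : ℝ, volume {q : ℝ | ∃ x ∈ closedBall (0 : E n) 3,
      u x = (y, q) ∧ x i = t} = 0 := by
  have h1 := null_imageW hE hu i
  rw [Measure.volume_eq_prod] at h1
  have h2 := Measure.measure_ae_null_of_prod_null h1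
  rw [Measure.volume_eq_prod] at h2
  have h3 := Measure.ae_ae_of_ae_prod h2
  filter_upwards [h3] with y hy
  filter_upwards [hy] with t ht
  refine measure_mono_null ?_ ht
  rintro q ⟨x, hx, hxq, hxt⟩
  exact ⟨x, hx, by simp only [hxq, hxt]⟩

/-- averages are continuous -/
theorem ave_contV {n : ℕ} {V : Type} [NormedAddCommGroup V] [NormedSpace ℝ V] [CompleteSpace V]
    {Ω : Type} [TopologicalSpace Ω] [CompactSpace Ω]
    [MeasurableSpace Ω] [BorelSpace Ω] (μ : Measure Ω) [IsProbabilityMeasure μ]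
    (T : Ω → E n → V) (hT : ContinuousOn (fun q : Ω × E n => T q.1 q.2) (univ ×ˢ BB n)) :
    ContinuousOn (fun x => ∫ ω, T ω x ∂μ) (BB n) := by
  let Φ : C(Ω, C(BB n, V)) := resV T hT
  have hint : Integrable (fun ω => Φ ω) μ :=
    Φ.continuous.integrable_of_hasCompactSupport (HasCompactSupport.of_compactSpace _)
  have heval : ∀ x : BB n, ∫ ω, T ω x.1 ∂μ = (∫ ω, Φ ω ∂μ : C(BB n, V)) x := by
    intro x
    have := (ContinuousMap.evalCLM ℝ x : C(BB n, V) →L[ℝ] V).integral_comp_comm hint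
    exact this
  rw [continuousOn_iff_continuous_domRestrict]
  have : (BB n).domRestrict (fun x => ∫ ω, T ω x ∂μ) = (∫ ω, Φ ω ∂μ : C(BB n, V)) := by
    ext1 x
    exact heval x
  rw [this]
  exact (∫ ω, Φ ω ∂μ : C(BB n, V)).continuous

end Pool.Agent.H751.HSE
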