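import Pool.Agent.H751.HSE.Loc

/-!
# The class of local actions with critical energies of exponent `n + 1` along a sequence of scales

Adaptation of `Q155/HS/Cls.lean` and `Q155/HS/Tra.lean`.
-/

set_option autoImplicit false

open MeasureTheory Set Metric Filter Topology
open scoped ENNReal NNReal

namespace Pool.Agent.H751.HSE

open Pool.Agent.Y485.HS Pool.Agent.Y489.SP Pool.Agent.Y401.SPN Pool.Agent.Y532.SP.BAI
open Pool.Agent.Y475.HS Pool.Agent.Y532.SP.LOCS Pool.Agent.K1H66.HS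
open Pool.Agent.Q155.HS (Cls Good chartAct chf ChF pack scont compK)

/-- the energies of exponent `n + 1` tend to zero along a sequence of scales -/
def GdE (n : ℕ) (P : Type) [Group P] [TopologicalSpace P] (T : P → E n → E n) : Prop :=
  ∃ r : ℕ → ℝ, (∀ j, 0 < r j) ∧ ∀ h, ∀ ε : ℝ, 0 < ε → ∀ᶠ j in atTop, EnW (n + 1) (r j) ε (T h)

/-- every map of the ball close to the identity has a finite energy at every scale -/
theorem fin_enW {n : ℕ} {H : Type} [Group H] [TopologicalSpace H]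
    {T : H → E n → E n} (hT : LocAct n H T) {r : ℝ} (hr : 0 < r) :
    ∃ N : ℕ, ∀ h, EnW (n + 1) r N (T h) := by
  obtain ⟨M, hM⟩ := pack n hr
  obtain ⟨N, hN⟩ := exists_nat_ge (r * (M * (8 : ℝ) ^ (n + 1)))
  refine ⟨N, fun h A hA hs => le_trans ?_ hN⟩
  refine mul_le_mul_of_nonneg_left ?_ hr.le
  have hd : ∀ a ∈ A, Metric.diam (T h '' (closedBall a r ∩ closedBall 0 3)) ^ (n + 1) ≤
      (8 : ℝ) ^ (n + 1) := by
    intro a _
    refine pow_le_pow_left₀ diam_nonneg ?_ (n + 1)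
    refine Metric.diam_le_of_forall_dist_le (by norm_num) ?_
    rintro _ ⟨x, hx, rfl⟩ _ ⟨y, hy, rfl⟩
    have hx3 : ‖x‖ ≤ 3 := by simpa using hx.2
    have hy3 : ‖y‖ ≤ 3 := by simpa using hy.2
    have h1 := hT.disp h x (mem_BB.2 (by linarith))
    have h2 := hT.disp h y (mem_BB.2 (by linarith))
    have h3 : dist x y ≤ 6 := by
      rw [dist_eq_norm]
      exact (norm_sub_le _ _).trans (by linarith)
    have h4 := dist_triangle4 (T h x) x y (T h y)
    rw [dist_comm y] at h4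
    linarith
  calc ∑ a ∈ A, Metric.diam (T h '' (closedBall a r ∩ closedBall 0 3)) ^ (n + 1)
      ≤ ∑ _a ∈ A, (8 : ℝ) ^ (n + 1) := Finset.sum_le_sum hd
    _ = A.card * (8 : ℝ) ^ (n + 1) := by rw [Finset.sum_const, nsmul_eq_mul]
    _ ≤ M * (8 : ℝ) ^ (n + 1) := by
        have : (A.card : ℝ) ≤ M := by exact_mod_cast hM A hA hs
        gcongr

theorem bdd_enW {n : ℕ} {H : Type} [Group H] [TopologicalSpace H]
    {T : H → E n → E n} (hT : LocAct n H T) {r : ℕ → ℝ} (hr : ∀ j, 0 < r j) (h : H)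
    (h0 : ∀ ε : ℝ, 0 < ε → ∀ᶠ j in atTop, EnW (n + 1) (r j) ε (T h)) :
    ∃ N : ℕ, ∀ j, EnW (n + 1) (r j) N (T h) := by
  obtain ⟨J, hJ⟩ := eventually_atTop.1 (h0 1 one_pos)
  choose M hM using fun j => fin_enW hT (hr j)
  refine ⟨(Finset.range J).sup M + 1, fun j => ?_⟩
  rcases lt_or_ge j J with hj | hj
  · refine (hM j h).mono ?_
    have h1 : M j ≤ (Finset.range J).sup M := Finset.le_sup (Finset.mem_range.2 hj)
    have h2 : (M j : ℝ) ≤ (((Finset.range J).sup M : ℕ) : ℝ) := by exact_mod_cast h1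
    push_cast
    linarith
  · refine (hJ j hj).mono ?_
    push_cast
    have : (0 : ℝ) ≤ (((Finset.range J).sup M : ℕ) : ℝ) := Nat.cast_nonneg _
    linarith

theorem locE {p : ℕ} (hp : p.Prime) {n : ℕ} {H : Type} [Group H]
    [TopologicalSpace H] [IsTopologicalGroup H] [CompactSpace H] [T2Space H]
    [TotallyDisconnectedSpace H]
    {T : H → E n → E n} (hT : LocAct n H T) {r : ℕ → ℝ} (hr : ∀ j, 0 < r j)
    (hG : ∀ h, ∀ ε : ℝ, 0 < ε → ∀ᶠ j in atTop, EnW (n + 1) (r j) ε (T h)) (h0 : H) (N : ℕ) (g : H)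
    (hN : ∀ k ∈ (Subgroup.zpowers g).topologicalClosure, ∀ j, EnW (n + 1) (r j) N (T (h0 * k)))
    (hgp : Tendsto (fun j : ℕ => g ^ p ^ j) atTop (𝓝 1)) :
    ∀ x ∈ ball (0 : E n) (1 / 2), T g x = x := by
  refine locsW hp hT h0 g hgp ?_
  intro _ _ μ _ j
  have := compK g
  have hc := scont hT h0 (Subgroup.zpowers g).topologicalClosure
  have hUc : ContinuousOn (fun q : (Subgroup.zpowers g).topologicalClosure × E n =>
      (T (h0 * ((q.1 : H))⁻¹) q.2, bump n j (T (h0 * ((q.1 : H))⁻¹) q.2))) (univ ×ˢ BB n) :=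
    hc.prodMk ((bump_lip n j).continuous.comp_continuousOn hc)
  refine smW_dom μ (n + 1) (fun (k : (Subgroup.zpowers g).topologicalClosure) x =>
    (T (h0 * ((k : H))⁻¹) x, bump n j (T (h0 * ((k : H))⁻¹) x))) hUc r hr N ?_ ?_
  · intro ω i
    exact pair_enW (hr i) (hT.cont_right _) (hN _ (Subgroup.inv_mem _ ω.2) i) (bump_lip n j)
  · intro ω ε hε
    filter_upwards [hG (h0 * ((ω : H))⁻¹) ε hε] with i hi
    exact pair_enW (hr i) (hT.cont_right _) hi (bump_lip n j)

theorem cls_E {n : ℕ} : Cls n (GdE n) where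
  loc := by
    rintro P _ _ _ _ _ _ T hT ⟨r, hr, hG⟩
    have hcl : ∀ N : ℕ, IsClosed {h : P | ∀ j, EnW (n + 1) (r j) N (T h)} := by
      intro N
      have h1 : {h : P | ∀ j, EnW (n + 1) (r j) N (T h)} =
          ⋂ (j : ℕ) (A : Finset (E n)) (_ : ∀ a ∈ A, a ∈ closedBall (0 : E n) 3)
            (_ : ∀ a ∈ A, ∀ b ∈ A, a ≠ b → r j ≤ dist a b),
            {h : P | r j * ∑ a ∈ A, Metric.diam (T h '' Kar a (r j)) ^ (n + 1) ≤ N} := by
        ext h
        simp only [mem_iInter, mem_ofPred_eq, EnW]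
      rw [h1]
      refine isClosed_iInter fun j => isClosed_iInter fun A => isClosed_iInter fun _ =>
        isClosed_iInter fun _ => ?_
      exact isClosed_le (continuous_const.mul
        (continuous_finsetSum _ fun a _ => (cont_diamV T hT.cont a (r j)).pow (n + 1)))
          continuous_const
    have hU : ⋃ N : ℕ, {h : P | ∀ j, EnW (n + 1) (r j) N (T h)} = univ := by
      ext h
      simp only [mem_iUnion, mem_ofPred_eq, mem_univ, iff_true]
      exact bdd_enW hT hr h (hG h)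
    obtain ⟨m, h0, hh0⟩ := nonempty_interior_of_iUnion_of_closed hcl hU
    have hopen : IsOpen ((fun k : P => h0 * k) ⁻¹'
        (interior {h : P | ∀ j, EnW (n + 1) (r j) m (T h)})) :=
      isOpen_interior.preimage (continuous_const.mul continuous_id)
    obtain ⟨K, hK⟩ := ProfiniteGrp.exist_openNormalSubgroup_sub_open_nhds_of_one hopen (by
      rw [mem_preimage, mul_one]; exact hh0)
    refine ⟨K.toSubgroup, K.isOpen', fun p hp g hg hgp => ?_⟩
    have hKc : IsClosed (K.toSubgroup : Set P) := Subgroup.isClosed_of_isOpen _ K.isOpen'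
    have hle : (Subgroup.zpowers g).topologicalClosure ≤ K.toSubgroup :=
      Subgroup.topologicalClosure_minimal _ ((Subgroup.zpowers_le).2 hg) hKc
    refine locE hp hT hr hG h0 m g (fun k hk => ?_) hgp
    have h1 : h0 * k ∈ {h : P | ∀ j, EnW (n + 1) (r j) m (T h)} := interior_subset (hK (hle hk))
    exact h1
  fin := by
    rintro P _ _ _ _ _ _ T hT ⟨r, hr, hG⟩ K hK hKt p hp g hgp
    have hcos : ∀ k : P, ∀ k' ∈ K, ∀ y ∈ BB n, T (k * k') y = T k y := by
      intro k k' hk' y hy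
      rw [hT.mul k k' y hy (by rw [hKt k' hk' y hy]; exact hy), hKt k' hk' y hy]
    have hfinq : Finite (P ⧸ K) := Subgroup.quotient_finite_of_isOpen K hK
    have hfq : Fintype (P ⧸ K) := Fintype.ofFinite _
    choose mm hmm using fun h : P => bdd_enW hT hr h (hG h)
    let m : ℕ := Finset.univ.sup (fun q : P ⧸ K => mm (Quotient.out q))
    have hm : ∀ k : P, ∀ j, EnW (n + 1) (r j) m (T k) := by
      intro k j
      obtain ⟨h, hh⟩ := QuotientGroup.mk_out_eq_mul K k
      have h1 : EnW (n + 1) (r j) m (T (Quotient.out (k : P ⧸ K))) := by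
        refine (hmm (Quotient.out (k : P ⧸ K)) j).mono ?_
        have := Finset.le_sup (f := fun q : P ⧸ K => mm (Quotient.out q))
          (Finset.mem_univ (k : P ⧸ K))
        exact_mod_cast this
      refine h1.congr fun x hx => ?_
      rw [hh]
      exact hcos k h h.2 x hx
    exact locE hp hT hr hG 1 m g (fun k _ j => by rw [one_mul]; exact hm k j) hgp 0 (by simp)

/-! ### The metric space -/

/-- the discrete energy of exponent `n + 1` of `f` on `C` at scale `r`, with balls of radius `c * r`,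
is at most `ε` -/
def XEnE (n : ℕ) {X : Type} [MetricSpace X] (C : Set X) (c : ℕ) (r ε : ℝ) (f : X → X) : Prop :=
  ∀ A : Finset X, (∀ a ∈ A, a ∈ C) → (∀ a ∈ A, ∀ b ∈ A, a ≠ b → r ≤ dist a b) →
    r * ∑ a ∈ A, Metric.diam (f '' (closedBall a (c * r) ∩ C)) ^ (n + 1) ≤ ε

/-- energies in the chart -/
theorem chart_enE {n : ℕ} {X : Type} [MetricSpace X] {U : Set X} {ψ : X → E n} {θ : E n → X}
    {K : ℝ≥0} (hF : ChF U ψ θ K) (f : X → X) (hf : Continuous f)
    (hfU : ∀ y ∈ BB n, f (θ y) ∈ U) (c : ℕ) (hc : (K : ℝ) ^ 2 ≤ c) {r ε : ℝ} (hr : 0 < r)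
    (hE : XEnE n (θ '' BB n) c r ε f) :
    EnW (n + 1) (K * r) ((K : ℝ) ^ (n + 2) * ε) (fun y => ψ (f (θ y))) := by
  classical
  have hK1 := hF.one
  have hK0 : (0 : ℝ) < K := by linarith
  have h3B : closedBall (0 : E n) 3 ⊆ BB n := closedBall_subset_closedBall (by norm_num)
  have hinj : InjOn θ (BB n) := by
    intro a ha b hb hab
    rw [← hF.eq a ha, ← hF.eq b hb, hab]
  intro A hA3 hAs
  have hmain := hE (A.image θ) (by
      intro a ha
      obtain ⟨a0, ha0, rfl⟩ := Finset.mem_image.1 ha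
      exact mem_image_of_mem θ (h3B (hA3 a0 ha0))) (by
      intro a ha b hb hab
      obtain ⟨a0, ha0, rfl⟩ := Finset.mem_image.1 ha
      obtain ⟨b0, hb0, rfl⟩ := Finset.mem_image.1 hb
      have hne : a0 ≠ b0 := fun h => hab (by rw [h])
      have h1 := hAs a0 ha0 b0 hb0 hne
      have h2 := hF.lip.dist_le_mul _ (hF.mem a0 (h3B (hA3 a0 ha0))) _
        (hF.mem b0 (h3B (hA3 b0 hb0)))
      rw [hF.eq a0 (h3B (hA3 a0 ha0)), hF.eq b0 (h3B (hA3 b0 hb0))] at h2
      have h3 := h1.trans h2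
      exact le_of_mul_le_mul_left h3 hK0)
  rw [Finset.sum_image (fun a ha b hb hab =>
    hinj (h3B (hA3 a ha)) (h3B (hA3 b hb)) hab)] at hmain
  have hterm : ∀ a ∈ A, Metric.diam ((fun y => ψ (f (θ y))) ''
      (closedBall a (K * r) ∩ closedBall 0 3)) ^ (n + 1) ≤
      (K : ℝ) ^ (n + 1) *
        Metric.diam (f '' (closedBall (θ a) (c * r) ∩ (θ '' BB n))) ^ (n + 1) := by
    intro a ha
    rw [← mul_pow]
    refine pow_le_pow_left₀ diam_nonneg ?_ (n + 1)
    refine diam_le_of_forall_dist_le (mul_nonneg hK0.le diam_nonneg) ?_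
    rintro _ ⟨x, hx, rfl⟩ _ ⟨y, hy, rfl⟩
    have haB : a ∈ BB n := h3B (hA3 a ha)
    have hin : ∀ z ∈ closedBall a (K * r) ∩ closedBall (0 : E n) 3,
        θ z ∈ closedBall (θ a) (c * r) ∩ (θ '' BB n) := by
      intro z hz
      refine ⟨?_, mem_image_of_mem θ (h3B hz.2)⟩
      rw [mem_closedBall]
      have h1 := hF.lip'.dist_le_mul z (h3B hz.2) a haB
      have h2 : dist z a ≤ K * r := hz.1
      calc dist (θ z) (θ a) ≤ K * dist z a := h1
        _ ≤ K * (K * r) := by gcongr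
        _ = (K : ℝ) ^ 2 * r := by ring
        _ ≤ c * r := by gcongr
    have hbdd : Bornology.IsBounded (f '' (closedBall (θ a) (c * r) ∩ (θ '' BB n))) :=
      ((hF.comp.image hf).isBounded).subset (image_mono inter_subset_right)
    calc dist (ψ (f (θ x))) (ψ (f (θ y))) ≤ K * dist (f (θ x)) (f (θ y)) :=
          hF.lip.dist_le_mul _ (hfU x (h3B hx.2)) _ (hfU y (h3B hy.2))
      _ ≤ K * Metric.diam (f '' (closedBall (θ a) (c * r) ∩ (θ '' BB n))) := by
        gcongr
        exact dist_le_diam_of_mem hbdd (mem_image_of_mem _ (hin x hx))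
          (mem_image_of_mem _ (hin y hy))
  calc (K : ℝ) * r * ∑ a ∈ A, Metric.diam ((fun y => ψ (f (θ y))) ''
        (closedBall a (K * r) ∩ closedBall 0 3)) ^ (n + 1)
      ≤ K * r * ∑ a ∈ A, (K : ℝ) ^ (n + 1) * Metric.diam (f '' (closedBall (θ a) (c * r) ∩
          (θ '' BB n))) ^ (n + 1) := by
        refine mul_le_mul_of_nonneg_left (Finset.sum_le_sum hterm) (by positivity)
    _ = (K : ℝ) ^ (n + 2) * (r * ∑ a ∈ A, Metric.diam (f '' (closedBall (θ a) (c * r) ∩
          (θ '' BB n))) ^ (n + 1)) := by rw [← Finset.mul_sum]; ring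
    _ ≤ (K : ℝ) ^ (n + 2) * ε := by gcongr

/-- On `C` the energies of exponent `n + 1` of the elements of `V` tend to zero along a sequence of
scales which does not depend on the element. -/
def SeqE (n : ℕ) {X : Type} [MetricSpace X] {G : Type} [Group G] [MulAction G X] (V : Set G)
    (C : Set X) : Prop :=
  ∀ c : ℕ, ∃ s : ℕ → ℝ, (∀ j, 0 < s j) ∧ ∀ g ∈ V, ∀ ε : ℝ, 0 < ε →
    ∀ᶠ j in atTop, XEnE n C c (s j) ε (fun x : X => g • x)

theorem good_seqE {n : ℕ} {X : Type} [MetricSpace X] {S : Set X}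
    {G : Type} [Group G] [TopologicalSpace G] [MulAction G X] [ContinuousSMul G X]
    {V : Set G} (hV : ∀ C ⊆ S, IsCompact C → SeqE n V C)
    (P : Type) [Group P] [TopologicalSpace P] (i : P →* G) (hiV : ∀ h, i h ∈ V) :
    Good n S (GdE n) P (fun (h : P) (x : X) => i h • x) := by
  intro U ψ L x0 hψ hUS hx0 hBU hact
  obtain ⟨K, hF⟩ := chf (x0 := x0) hψ hBU
  obtain ⟨c, hc⟩ := exists_nat_ge ((K : ℝ) ^ 2)
  have hK0 : (0 : ℝ) < K := by linarith [hF.one]
  have hCS : inv' U ψ x0 '' BB n ⊆ S := by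
    rintro _ ⟨y, hy, rfl⟩
    exact hUS (hF.mem y hy)
  obtain ⟨s, hs, hV'⟩ := hV _ hCS hF.comp c
  refine ⟨fun j => K * s j, fun j => mul_pos hK0 (hs j), fun h ε hε => ?_⟩
  have h1 := hV' (i h) (hiV h) (ε / (K : ℝ) ^ (n + 2)) (by positivity)
  filter_upwards [h1] with j hj
  have h2 := chart_enE hF (fun x : X => i h • x) (continuous_const_smul (i h))
    (fun y hy => (hact h _ (hF.mem y hy) (by rw [hF.eq y hy]; exact hy)).1) c hc (hs j) hj
  have h3 : (K : ℝ) ^ (n + 2) * (ε / (K : ℝ) ^ (n + 2)) = ε := by field_simp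
  rw [h3] at h2
  exact h2

/-- Hilbert-Smith for critical energies along a sequence of scales -/
theorem lie_seqE {n : ℕ} (hn : 1 ≤ n) {X : Type} [MetricSpace X] {S : Set X} (hSo : IsOpen S)
    (hSR : S ⊆ Reg n X) (hd : Dense S) (hc : IsPreconnected S)
    {G : Type} [Group G] [TopologicalSpace G] [IsTopologicalGroup G] [LocallyCompactSpace G]
    [MulAction G X] [ContinuousSMul G X] [FaithfulSMul G X] {V : Set G} (hV : V ∈ 𝓝 (1 : G))
    (h : ∀ C ⊆ S, IsCompact C → SeqE n V C) : IsLie G :=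
  Pool.Agent.Q155.HS.lie_main hn cls_E hSo hSR hd hc V hV
    (fun P _ _ _ _ _ _ i _ hi => good_seqE h P i hi)

end Pool.Agent.H751.HSE
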