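import Pool.Agent.H751.HSE.Cls
import Pool.Graph.R_pool_sql_team_seeded_2aa45f1a.Q155.HS.App

/-!
# Moduli of continuity at the critical exponent along scales; approximation by Lipschitz maps
-/

set_option autoImplicit false

open MeasureTheory Set Metric Filter Topology
open scoped ENNReal NNReal

namespace Pool.Agent.H751.HSE

open Pool.Agent.Y485.HS Pool.Agent.Y489.SP Pool.Agent.Y401.SPN Pool.Agent.Y532.SP.BAI
open Pool.Agent.Y475.HS Pool.Agent.Y532.SP.LOCS Pool.Agent.K1H66.HS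
open Pool.Agent.Q155.HS (Cls Good chartAct chf ChF pack scont compK)

/-- the number of separated points in a ball -/
theorem card_sepE {n : ℕ} {r R : ℝ} (hr : 0 < r) (hrR : r ≤ R) (A : Finset (E n))
    (hA : ∀ a ∈ A, a ∈ closedBall (0 : E n) 3) (hs : ∀ a ∈ A, ∀ b ∈ A, a ≠ b → r ≤ dist a b) :
    (A.card : ℝ) * r ^ n ≤ (6 + R + R) ^ n := by
  have hv := measure_ball_lt_top (μ := (volume : Measure (E n))) (x := 0) (r := 1)
  have hv0 : volume (ball (0 : E n) 1) ≠ 0 := (measure_ball_pos volume _ one_pos).ne'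
  have hdisj : (A : Set (E n)).PairwiseDisjoint (fun a => ball a (r / 2)) := by
    intro a ha b hb hab
    refine ball_disjoint_ball ?_
    have := hs a ha b hb hab
    linarith
  have h1 : ∑ a ∈ A, volume (ball a (r / 2)) ≤ volume (ball (0 : E n) (3 + R)) := by
    rw [← measure_biUnion_finset hdisj fun a _ => measurableSet_ball]
    refine measure_mono (iUnion₂_subset fun a ha => ?_)
    refine ball_subset_ball' ?_
    have : dist a 0 ≤ 3 := hA a ha
    linarith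
  have h2 : ∀ a : E n, volume (ball a (r / 2)) =
      ENNReal.ofReal ((r / 2) ^ n) * volume (ball (0 : E n) 1) := by
    intro a
    rw [Measure.addHaar_ball_of_pos volume a (by positivity), finrank_euclideanSpace_fin]
  have hR : 0 < R := lt_of_lt_of_le hr hrR
  have h3 : volume (ball (0 : E n) (3 + R)) =
      ENNReal.ofReal ((3 + R) ^ n) * volume (ball (0 : E n) 1) := by
    rw [Measure.addHaar_ball_of_pos volume _ (by positivity), finrank_euclideanSpace_fin]
  simp only [h2, h3, Finset.sum_const, nsmul_eq_mul] at h1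
  rw [← mul_assoc] at h1
  have h4 := (ENNReal.mul_le_mul_iff_left hv0 hv.ne).1 h1
  have h5 : (A.card : ℝ≥0∞) = ENNReal.ofReal (A.card : ℝ) := by simp
  rw [h5, ← ENNReal.ofReal_mul (Nat.cast_nonneg _),
    ENNReal.ofReal_le_ofReal_iff (by positivity)] at h4
  have h6 : (r / 2) ^ n * 2 ^ n = r ^ n := by rw [← mul_pow]; congr 1; ring
  have h7 : (3 + R) ^ n * 2 ^ n = (6 + R + R) ^ n := by rw [← mul_pow]; congr 1; ring
  calc (A.card : ℝ) * r ^ n = (A.card * (r / 2) ^ n) * 2 ^ n := by rw [← h6]; ring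
    _ ≤ (3 + R) ^ n * 2 ^ n := by gcongr
    _ = (6 + R + R) ^ n := h7

/-- On `C` the moduli of continuity of the elements of `V` are small with respect to
`s ^ ((n - 1) / (n + 1))` along a sequence of scales `s` which does not depend on the element. -/
def ModE (n : ℕ) {X : Type} [MetricSpace X] {G : Type} [Group G] [MulAction G X] (V : Set G)
    (C : Set X) : Prop :=
  ∀ c : ℕ, ∃ s : ℕ → ℝ, (∀ j, 0 < s j ∧ s j ≤ 1) ∧ ∀ g ∈ V, ∀ ε : ℝ, 0 < ε →
    ∀ᶠ j in atTop, ∀ x ∈ C, ∀ y ∈ C, dist x y ≤ c * s j →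
      dist (g • x) (g • y) ^ (n + 1) ≤ ε * s j ^ (n - 1)

theorem diam_pow_le {Y : Type} [PseudoMetricSpace Y] {S : Set Y} {m : ℕ} (hm : m ≠ 0) {M : ℝ}
    (hM : 0 ≤ M) (h : ∀ x ∈ S, ∀ y ∈ S, dist x y ^ m ≤ M) : Metric.diam S ^ m ≤ M := by
  have h1 : Metric.diam S ≤ M ^ ((m : ℝ)⁻¹) := by
    refine diam_le_of_forall_dist_le (by positivity) fun x hx y hy => ?_
    rw [Real.le_rpow_inv_iff_of_pos dist_nonneg hM (by positivity), Real.rpow_natCast]
    exact h x hx y hy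
  calc Metric.diam S ^ m ≤ (M ^ ((m : ℝ)⁻¹)) ^ m := pow_le_pow_left₀ diam_nonneg h1 m
    _ = M := Real.rpow_inv_natCast_pow hM hm

theorem good_modE {n : ℕ} (hn : 1 ≤ n) {X : Type} [MetricSpace X] {U : Set X} {ψ : X → E n}
    {L : ℝ} {x0 : X} (hψ : BiLip n U ψ L) (hBU : closedBall 0 4 ⊆ ψ '' U)
    {G : Type} [Group G] [TopologicalSpace G] [MulAction G X] [ContinuousSMul G X]
    {V : Set G} (hV : ModE n V (inv' U ψ x0 '' BB n))
    (P : Type) [Group P] [TopologicalSpace P] (i : P →* G) (hiV : ∀ h, i h ∈ V)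
    (hact : ∀ h : P, ∀ x ∈ U, ψ x ∈ closedBall 0 4 →
      i h • x ∈ U ∧ dist (ψ (i h • x)) (ψ x) ≤ 1 / 4) :
    GdE n P (chartAct U ψ x0 (fun (h : P) (x : X) => i h • x)) := by
  obtain ⟨K, hF⟩ := chf (x0 := x0) hψ hBU
  obtain ⟨c, hc⟩ := exists_nat_ge (2 * (K : ℝ) ^ 2)
  have hK1 := hF.one
  have hK0 : (0 : ℝ) < K := by linarith
  have h3B : closedBall (0 : E n) 3 ⊆ BB n := closedBall_subset_closedBall (by norm_num)
  obtain ⟨s, hs, hV'⟩ := hV c
  refine ⟨fun j => K * s j, fun j => mul_pos hK0 (hs j).1, fun h ε hε => ?_⟩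
  set M : ℝ := (K : ℝ) ^ (n + 2) * (6 + K + K) ^ n with hM
  have hM0 : 0 < M := by positivity
  filter_upwards [hV' (i h) (hiV h) (ε / M) (by positivity)] with j hj
  intro A hA hAs
  have hs0 := (hs j).1
  have hterm : ∀ a ∈ A, Metric.diam (chartAct U ψ x0 (fun (h : P) (x : X) => i h • x) h ''
      (closedBall a (K * s j) ∩ closedBall 0 3)) ^ (n + 1) ≤
        (K : ℝ) ^ (n + 1) * (ε / M * s j ^ (n - 1)) := by
    intro a _
    refine diam_pow_le (by omega) (by positivity) ?_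
    rintro _ ⟨x, hx, rfl⟩ _ ⟨y, hy, rfl⟩
    have hxB := h3B hx.2
    have hyB := h3B hy.2
    have hxy : dist x y ≤ 2 * (K * s j) := by
      have h1 : dist x a ≤ K * s j := hx.1
      have h2 : dist y a ≤ K * s j := hy.1
      have := dist_triangle_right x y a
      linarith
    have e1 : dist (inv' U ψ x0 x) (inv' U ψ x0 y) ≤ c * s j := by
      calc dist (inv' U ψ x0 x) (inv' U ψ x0 y) ≤ K * dist x y := hF.lip'.dist_le_mul x hxB y hyB
        _ ≤ K * (2 * (K * s j)) := by gcongr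
        _ = 2 * (K : ℝ) ^ 2 * s j := by ring
        _ ≤ c * s j := by gcongr
    have e2 := hj _ (mem_image_of_mem _ hxB) _ (mem_image_of_mem _ hyB) e1
    calc dist (ψ (i h • inv' U ψ x0 x)) (ψ (i h • inv' U ψ x0 y)) ^ (n + 1)
        ≤ (K * dist (i h • inv' U ψ x0 x) (i h • inv' U ψ x0 y)) ^ (n + 1) := by
          refine pow_le_pow_left₀ dist_nonneg ?_ (n + 1)
          exact hF.lip.dist_le_mul _ (hact h _ (hF.mem x hxB) (by rw [hF.eq x hxB]; exact hxB)).1 _
            (hact h _ (hF.mem y hyB) (by rw [hF.eq y hyB]; exact hyB)).1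
      _ = (K : ℝ) ^ (n + 1) * dist (i h • inv' U ψ x0 x) (i h • inv' U ψ x0 y) ^ (n + 1) :=
          mul_pow _ _ _
      _ ≤ (K : ℝ) ^ (n + 1) * (ε / M * s j ^ (n - 1)) := by gcongr
  have hcard := card_sepE (R := K) (mul_pos hK0 hs0)
    (by nlinarith [(hs j).2] : (K : ℝ) * s j ≤ K) A hA hAs
  obtain ⟨m, rfl⟩ : ∃ m, n = m + 1 := ⟨n - 1, by omega⟩
  simp only [Nat.add_sub_cancel] at hterm
  calc (K : ℝ) * s j * ∑ a ∈ A, Metric.diam (chartAct U ψ x0 (fun (h : P) (x : X) => i h • x) h ''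
      (closedBall a (K * s j) ∩ closedBall 0 3)) ^ (m + 1 + 1)
      ≤ K * s j * ∑ _a ∈ A, (K : ℝ) ^ (m + 1 + 1) * (ε / M * s j ^ m) := by
        gcongr with a ha
        exact hterm a ha
    _ = K * s j * (A.card * ((K : ℝ) ^ (m + 1 + 1) * (ε / M * s j ^ m))) := by
        rw [Finset.sum_const, nsmul_eq_mul]
    _ ≤ (A.card * (K * s j) ^ (m + 1)) * ((K : ℝ) ^ (m + 1 + 2) * (ε / M)) := by
        have e1 : K * s j * (A.card * ((K : ℝ) ^ (m + 1 + 1) * (ε / M * s j ^ m))) =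
            (A.card * s j ^ (m + 1)) * ((K : ℝ) ^ (m + 1 + 2) * (ε / M)) := by ring
        rw [e1]
        have e2 : s j ^ (m + 1) ≤ (K * s j) ^ (m + 1) := by
          refine pow_le_pow_left₀ hs0.le ?_ _
          nlinarith
        gcongr
    _ ≤ (6 + K + K) ^ (m + 1) * ((K : ℝ) ^ (m + 1 + 2) * (ε / M)) := by gcongr
    _ = ε := by
        rw [hM]
        field_simp

/-- For all `ε` and suitable `L` the elements of `V` are on `C` at distance at most
`ε / L ^ ((n - 1) / 2)` from `L`-Lipschitz maps. -/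
def LipE (n : ℕ) {X : Type} [MetricSpace X] {G : Type} [Group G] [MulAction G X] (V : Set G)
    (C : Set X) : Prop :=
  ∀ ε : ℝ, 0 < ε → ∃ L : ℝ, 1 ≤ L ∧ ∀ g ∈ V, ∃ f : X → X,
    (∀ x ∈ C, ∀ y ∈ C, dist (f x) (f y) ≤ L * dist x y) ∧
    ∀ x ∈ C, dist (g • x) (f x) ^ 2 * L ^ (n - 1) ≤ ε

theorem modE_of_lipE {n : ℕ} (hn : 1 ≤ n) {X : Type} [MetricSpace X] {G : Type} [Group G]
    [MulAction G X] {V : Set G} {C : Set X} (h : LipE n V C) : ModE n V C := by
  intro c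
  choose L hL1 hL using fun j : ℕ => h (1 / ((j : ℝ) + 1)) (by positivity)
  have hL0 : ∀ j, 0 < L j := fun j => by linarith [hL1 j]
  obtain ⟨m, rfl⟩ : ∃ m, n = m + 1 := ⟨n - 1, by omega⟩
  simp only [Nat.add_sub_cancel] at hL
  set δ : ℕ → ℝ := fun j => Real.sqrt (1 / ((j : ℝ) + 1) / L j ^ m) with hδ
  have hq : ∀ j : ℕ, 0 < 1 / ((j : ℝ) + 1) / L j ^ m := fun j => by
    have := hL0 j
    positivity
  have hδ0 : ∀ j, 0 < δ j := fun j => Real.sqrt_pos.2 (hq j)
  have hδ2 : ∀ j, δ j ^ 2 * L j ^ m = 1 / ((j : ℝ) + 1) := fun j => by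
    have := hL0 j
    rw [hδ, Real.sq_sqrt (hq j).le]
    field_simp
  have hδ1 : ∀ j, δ j ≤ 1 := fun j => by
    rw [hδ]
    refine Real.sqrt_le_one.2 ?_
    have h1 : 1 ≤ L j ^ m := one_le_pow₀ (hL1 j)
    have h2 : 1 / ((j : ℝ) + 1) ≤ 1 := by
      rw [div_le_one (by positivity)]
      have : (0 : ℝ) ≤ j := Nat.cast_nonneg j
      linarith
    exact (div_le_one₀ (by positivity)).2 (h2.trans h1)
  refine ⟨fun j => δ j / L j, fun j => ⟨div_pos (hδ0 j) (hL0 j), ?_⟩, ?_⟩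
  · rw [div_le_one (hL0 j)]
    exact (hδ1 j).trans (hL1 j)
  intro g hg ε hε
  have hlim : Tendsto (fun j : ℕ => ((c : ℝ) + 2) ^ (m + 1 + 1) * (1 / ((j : ℝ) + 1))) atTop
      (𝓝 0) := by
    have h1 := (tendsto_one_div_add_atTop_nhds_zero_nat (𝕜 := ℝ)).const_mul
      (((c : ℝ) + 2) ^ (m + 1 + 1))
    rwa [mul_zero] at h1
  filter_upwards [hlim.eventually (ge_mem_nhds hε)] with j hj
  intro x hx y hy hxy
  obtain ⟨f, hf1, hf2⟩ := hL j g hg
  have hLj := hL0 j
  have hd : ∀ z ∈ C, dist (g • z) (f z) ≤ δ j := by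
    intro z hz
    rw [hδ]
    apply Real.le_sqrt_of_sq_le
    rw [le_div_iff₀ (by positivity)]
    exact hf2 z hz
  have h1 : dist (g • x) (g • y) ≤ (c + 2) * δ j := by
    have e1 := hd x hx
    have e2 := hd y hy
    have e3 : dist (f x) (f y) ≤ c * δ j := by
      calc dist (f x) (f y) ≤ L j * dist x y := hf1 x hx y hy
        _ ≤ L j * (c * (δ j / L j)) := by gcongr
        _ = c * δ j := by field_simp
    have e4 := dist_triangle4 (g • x) (f x) (f y) (g • y)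
    rw [dist_comm (f y)] at e4
    linarith
  have hδj := hδ0 j
  simp only [Nat.add_sub_cancel]
  calc dist (g • x) (g • y) ^ (m + 1 + 1) ≤ ((c + 2) * δ j) ^ (m + 1 + 1) :=
        pow_le_pow_left₀ dist_nonneg h1 _
    _ = ((c + 2) ^ (m + 1 + 1) * (δ j ^ 2 * L j ^ m)) * (δ j / L j) ^ m := by
        have e5 : L j ^ m * (δ j / L j) ^ m = δ j ^ m := by
          rw [← mul_pow, mul_div_cancel₀ _ hLj.ne']
        rw [mul_pow, mul_assoc, mul_assoc, e5]
        ring
    _ ≤ ε * (δ j / L j) ^ m := by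
        rw [hδ2 j]
        gcongr

/-- Hilbert-Smith for critical energies or moduli of continuity along scales -/
theorem lie_crit {n : ℕ} (hn : 1 ≤ n) {X : Type} [MetricSpace X] {S : Set X} (hSo : IsOpen S)
    (hSR : S ⊆ Reg n X) (hd : Dense S) (hc : IsPreconnected S)
    {G : Type} [Group G] [TopologicalSpace G] [IsTopologicalGroup G] [LocallyCompactSpace G]
    [MulAction G X] [ContinuousSMul G X] [FaithfulSMul G X] {V : Set G} (hV : V ∈ 𝓝 (1 : G))
    (h : ∀ C ⊆ S, IsCompact C → SeqE n V C ∨ ModE n V C ∨ LipE n V C) : IsLie G := by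
  refine Pool.Agent.Q155.HS.lie_main hn cls_E hSo hSR hd hc V hV
    (fun P _ _ _ _ _ _ i _ hi => ?_)
  intro U ψ L x0 hψ hUS hx0 hBU hact
  obtain ⟨K, hF⟩ := chf (x0 := x0) hψ hBU
  have hCS : inv' U ψ x0 '' BB n ⊆ S := by
    rintro _ ⟨y, hy, rfl⟩
    exact hUS (hF.mem y hy)
  rcases h _ hCS hF.comp with h1 | h1 | h1
  · obtain ⟨c, hc⟩ := exists_nat_ge ((K : ℝ) ^ 2)
    have hK0 : (0 : ℝ) < K := by linarith [hF.one]
    obtain ⟨s, hs, hV'⟩ := h1 c
    refine ⟨fun j => K * s j, fun j => mul_pos hK0 (hs j), fun h ε hε => ?_⟩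
    have h1 := hV' (i h) (hi h) (ε / (K : ℝ) ^ (n + 2)) (by positivity)
    filter_upwards [h1] with j hj
    have h2 := chart_enE hF (fun x : X => i h • x) (continuous_const_smul (i h))
      (fun y hy => (hact h _ (hF.mem y hy) (by rw [hF.eq y hy]; exact hy)).1) c hc (hs j) hj
    have h3 : (K : ℝ) ^ (n + 2) * (ε / (K : ℝ) ^ (n + 2)) = ε := by field_simp
    rw [h3] at h2
    exact h2
  · exact good_modE hn hψ hBU h1 P i hi hact
  · exact good_modE hn hψ hBU (modE_of_lipE hn h1) P i hi hact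

end Pool.Agent.H751.HSE
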